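import Pool.Agent.Q171.Core.Main

set_option autoImplicit false

open Metric Set Filter Topology
open scoped ContDiff

/-!
# A subdomain containing the core can have a smaller core
-/

namespace Pool.Agent.Results.MP_902c37_an.CoreSubdomain

open Pool.Agent.Q171.Core

theorem outer_psh : BddPsh {p : ℂ × ℂ | p ∈ Om ∧ 1 < ‖p.1‖} (fun p => ‖p.1⁻¹‖ ^ 2 + ‖p.2‖ ^ 2) ∧
    ∀ p : ℂ × ℂ, 1 < ‖p.1‖ → ∀ ξ : ℂ × ℂ, ξ ≠ 0 →
      0 < lev (fun p => ‖p.1⁻¹‖ ^ 2 + ‖p.2‖ ^ 2) p ξ := by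
  have hne : ∀ p : ℂ × ℂ, 1 < ‖p.1‖ → p.1 ≠ 0 := fun p hp => by
    rw [← norm_pos_iff]; linarith
  have s1 : ∀ p : ℂ × ℂ, 1 < ‖p.1‖ → ContDiffAt ℝ ∞ (fun p : ℂ × ℂ => ‖p.1⁻¹‖ ^ 2) p := by
    intro p hp
    have h1 : ContDiffAt ℝ ∞ (fun p : ℂ × ℂ => p.1⁻¹) p := contDiffAt_fst.inv (hne p hp)
    exact (contDiff_norm_sq ℂ).contDiffAt.comp p h1
  have s2 : ContDiff ℝ ∞ (fun p : ℂ × ℂ => ‖p.2‖ ^ 2) := (contDiff_norm_sq ℂ).comp contDiff_snd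
  have hlev : ∀ p ξ : ℂ × ℂ, 1 < ‖p.1‖ → lev (fun p => ‖p.1⁻¹‖ ^ 2 + ‖p.2‖ ^ 2) p ξ =
      ‖-ξ.1 / p.1 ^ 2‖ ^ 2 + ‖ξ.2‖ ^ 2 := by
    intro p ξ hp
    rw [lev_add ((s1 p hp).of_le two_le_infty) (s2.contDiffAt.of_le two_le_infty)]
    have hid : ∀ (a b ζ : ℂ), HasDerivAt (fun ζ : ℂ => a + ζ * b) b ζ := by
      intro a b ζ
      simpa using ((hasDerivAt_id ζ).mul_const b).const_add a
    have hp0 := hne p hp
    congr 1
    · have hev : ∀ᶠ ζ in 𝓝 (0 : ℂ), p.1 + ζ * ξ.1 ≠ 0 := by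
        have hc : Continuous (fun ζ : ℂ => p.1 + ζ * ξ.1) := by fun_prop
        apply hc.continuousAt.eventually_ne
        simpa using hp0
      have h3 : HasDerivAt (fun ζ : ℂ => -ξ.1 / (p.1 + ζ * ξ.1) ^ 2) _ 0 :=
        (hasDerivAt_const (0 : ℂ) (-ξ.1)).div ((hid p.1 ξ.1 0).pow 2) (by
          simpa using hp0)
      have := lev_norm_sq (f := fun q => q.1⁻¹) (p := p) (ξ := ξ)
        (h' := fun ζ => -ξ.1 / (p.1 + ζ * ξ.1) ^ 2) (by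
          filter_upwards [hev] with ζ hζ
          have : HasDerivAt (fun ζ : ℂ => (p.1 + ζ * ξ.1)⁻¹) _ ζ := (hid p.1 ξ.1 ζ).inv hζ
          simpa using this) h3
      simpa using this
    · exact lev_norm_sq (f := fun q => q.2) (h' := fun _ => ξ.2) (h2 := 0)
        (Eventually.of_forall fun ζ => by simpa using hid p.2 ξ.2 ζ) (hasDerivAt_const _ _)
  refine ⟨⟨fun p hp => ((s1 p hp.2).add s2.contDiffAt).contDiffWithinAt, fun p hp ξ => ?_, 2,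
    fun p hp => ?_⟩, fun p hp ξ hξ => ?_⟩
  · rw [hlev p ξ hp.2]; positivity
  · have h1 : ‖p.2‖ ^ 2 * (1 + ‖p.1‖ ^ 2) < 1 := hp.1
    have h2 : 1 < ‖p.1‖ := hp.2
    show ‖p.1⁻¹‖ ^ 2 + ‖p.2‖ ^ 2 ≤ 2
    have h3 : ‖p.1⁻¹‖ ≤ 1 := by
      rw [norm_inv]; exact inv_le_one_of_one_le₀ h2.le
    have h4 : ‖p.1⁻¹‖ ^ 2 ≤ 1 := pow_le_one₀ (norm_nonneg _) h3
    nlinarith [mul_nonneg (sq_nonneg ‖p.2‖) (sq_nonneg ‖p.1‖)]
  · rw [hlev p ξ hp]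
    by_cases h2 : ξ.2 = 0
    · have h1 : ξ.1 ≠ 0 := fun h1 => hξ (Prod.ext h1 h2)
      have : 0 < ‖-ξ.1 / p.1 ^ 2‖ :=
        norm_pos_iff.mpr (div_ne_zero (neg_ne_zero.mpr h1) (pow_ne_zero 2 (hne p hp)))
      positivity
    · have : 0 < ‖ξ.2‖ := norm_pos_iff.mpr h2
      positivity

/-- There are domains `W ⊆ Ω` in `ℂ²` such that the core of `Ω` is nonempty and contained in `W`,
while the core of `W` is empty. -/
theorem result : ∃ Ω W : Set (ℂ × ℂ), IsOpen Ω ∧ IsConnected Ω ∧ IsOpen W ∧ IsConnected W ∧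
    W ⊆ Ω ∧ core Ω ⊆ W ∧ (core Ω).Nonempty ∧ core W = ∅ := by
  set Ω : Set (ℂ × ℂ) := {p | p ∈ Om ∧ ¬ (p.2 = 0 ∧ ‖p.1‖ ≤ 1)} with hΩ
  set W : Set (ℂ × ℂ) := {p | p ∈ Om ∧ 1 < ‖p.1‖} with hW
  have hΩo : IsOpen Ω := by
    apply isOpen_om.inter
    have hcl : IsClosed {p : ℂ × ℂ | p.2 = 0 ∧ ‖p.1‖ ≤ 1} :=
      (isClosed_eq continuous_snd continuous_const).inter
        (isClosed_le (continuous_norm.comp continuous_fst) continuous_const)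
    exact hcl.isOpen_compl
  have hsub : ∀ p ∈ Om, p.2 ≠ 0 → p ∈ Ω := fun p hp h => ⟨hp, fun hcon => h hcon.1⟩
  have hcore : core Ω ⊆ W := by
    intro p hp
    have h0 := core_subset_line (fun q hq => hq.1) hp
    have h1 : p ∈ Ω := hp.1
    refine ⟨h1.1, ?_⟩
    by_contra hcon
    push Not at hcon
    exact h1.2 ⟨h0, hcon⟩
  refine ⟨Ω, W, hΩo, connected_between (fun q hq => hq.1) hsub, ?_, ?_, ?_, hcore, ?_, ?_⟩
  · exact isOpen_om.inter (isOpen_lt continuous_const (continuous_norm.comp continuous_fst))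
  · have h1 : W = shr '' ({z : ℂ | 1 < ‖z‖} ×ˢ ball 0 1) := by
      rw [shr_image]
      ext p
      constructor
      · rintro ⟨h1, h2⟩
        refine ⟨h2, ?_⟩
        rw [mem_ball_zero_iff]
        exact (om_iff p).mp h1
      · rintro ⟨h1, h2⟩
        rw [mem_ball_zero_iff] at h2
        exact ⟨(om_iff p).mpr h2, h1⟩
    rw [h1]
    exact (isConnected_outer.prod ((convex_ball (0 : ℂ) 1).isConnected
      ⟨0, mem_ball_self one_pos⟩)).image _ shr_continuous.continuousOn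
  · intro p hp
    exact ⟨hp.1, fun hcon => absurd hcon.2 (not_le.mpr hp.2)⟩
  · refine ⟨((2 : ℂ), (0 : ℂ)), line_in_core hΩo hsub ⟨?_, ?_⟩⟩
    · show ‖(0 : ℂ)‖ ^ 2 * (1 + ‖(2 : ℂ)‖ ^ 2) < 1
      simp
    · rintro ⟨_, h⟩
      norm_num at h
  · ext p
    simp only [mem_empty_iff_false, iff_false]
    intro hp
    exact hp.2 ⟨_, outer_psh.1, outer_psh.2 p hp.1.2⟩

end Pool.Agent.Results.MP_902c37_an.CoreSubdomain
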